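import Mathlib

set_option autoImplicit false

namespace Pool.Agent.Results.MP_89a31a_co.Counter

open Finset

def MaxStable {V : Type} (G : SimpleGraph V) (S : Finset V) : Prop :=
  Maximal (fun T : Finset V => G.IsIndepSet (T : Set V)) S

def StrEq {V : Type} (G : SimpleGraph V) : Prop :=
  ∀ T : Finset V, T.Nonempty → ¬ MaxStable G T → ∀ γ : ℝ, γ ≤ 1 →
    ∃ φ : V → ℝ, (∀ v, 0 < φ v) ∧ (∀ S, MaxStable G S → ∑ v ∈ S, φ v = 1) ∧ ∑ v ∈ T, φ v ≠ γ

def subst {V W : Type} (G : SimpleGraph V) (v : V) (H : SimpleGraph W) :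
    SimpleGraph ({u // u ≠ v} ⊕ W) where
  Adj
    | .inl a, .inl b => G.Adj a b
    | .inl a, .inr _ => G.Adj a v
    | .inr _, .inl b => G.Adj v b
    | .inr a, .inr b => H.Adj a b
  symm := ⟨by rintro (a | a) (b | b) h <;> exact h.symm⟩
  loopless := ⟨by rintro (a | a) h <;> exact h.ne rfl⟩

lemma max_of {V : Type} {G : SimpleGraph V} {S : Finset V} (h1 : ∀ a ∈ S, ∀ b ∈ S, ¬ G.Adj a b)
    (h2 : ∀ x, x ∉ S → ∃ y ∈ S, G.Adj x y) : MaxStable G S := by
  refine ⟨fun a ha b hb _ => h1 a ha b hb, fun T hT hST x hx => ?_⟩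
  by_contra hn
  obtain ⟨y, hy, h⟩ := h2 x hn
  exact hT hx (hST hy) h.ne h

def e1 (i : Fin 26) : ℕ :=
  [0, 0, 0, 1, 1, 2, 4, 2, 3, 2, 3, 3, 4, 9, 10, 11, 12, 13, 14, 15, 16, 9, 10, 11, 3, 4].getD i 0
def e2 (i : Fin 26) : ℕ :=
  [1, 5, 6, 7, 8, 5, 5, 6, 6, 7, 7, 8, 8, 10, 11, 12, 13, 14, 15, 16, 9, 13, 14, 15, 16,
    12].getD i 0
def w (i : Fin 26) : ℤ :=
  [12, 16, 20, 18, 18, 14, 18, 16, 12, 18, 12, 12, 18, 16, 16, 18, 18, 16, 16, 18, 18, 14, 16, 14,
    12, 12].getD i 0
def k (i : Fin 26) : ℤ :=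
  [556, 2618, -3174, -6704, 6148, -6120, 3502, -1950, 5124, 8070, -1366, -2386, -3762, 1266, -4032,
    3468, -3728, 2082, -4848, 4284, -2912, 1646, 2766, 564, -1372, 260].getD i 0

def inc (u : ℕ) (i : Fin 26) : Bool := e1 i == u || e2 i == u

def adj (i j : Fin 26) : Bool := !(inc (e1 i) j || inc (e2 i) j)

def G : SimpleGraph (Fin 26) where
  Adj i j := adj i j = true
  symm := ⟨by decide +kernel⟩
  loopless := ⟨by decide +kernel⟩

instance : DecidableRel G.Adj := fun i j => inferInstanceAs (Decidable (adj i j = true))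

def st (u : ℕ) : Finset (Fin 26) := univ.filter (fun i => inc u i = true)

lemma st_max : ∀ u < 17, MaxStable G (st u) := by
  have : ∀ u < 17, (∀ a ∈ st u, ∀ b ∈ st u, ¬ G.Adj a b) ∧
    ∀ x, x ∉ st u → ∃ y ∈ st u, G.Adj x y := by decide +kernel
  exact fun u hu => max_of (this u hu).1 (this u hu).2

lemma is_st {S : Finset (Fin 26)} (h : MaxStable G S) : ∃ u < 17, S = st u := by
  have key : ∃ u < 17, S ⊆ st u := by
    rcases S.eq_empty_or_nonempty with rfl | ⟨i, hi⟩
    · exact ⟨0, by norm_num, empty_subset _⟩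
    have ind : ∀ a ∈ S, ∀ b ∈ S, adj a b = false := by
      intro a ha b hb
      by_cases e : a = b
      · subst e
        exact Bool.eq_false_iff.2 (G.loopless.1 a)
      · exact Bool.eq_false_iff.2 (h.1 ha hb e)
    have lt : ∀ i, e1 i < 17 ∧ e2 i < 17 := by decide +kernel
    have tri : ∀ i j l, adj i j = false → adj i l = false → adj j l = false →
      inc (e1 i) j = true ∨ inc (e2 i) l = true := by decide +kernel
    by_cases c : ∀ j ∈ S, inc (e1 i) j = true
    · exact ⟨_, (lt i).1, fun j hj => mem_filter.2 ⟨mem_univ _, c j hj⟩⟩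
    · push Not at c
      obtain ⟨j, hj, hc⟩ := c
      exact ⟨_, (lt i).2, fun l hl => mem_filter.2 ⟨mem_univ _,
        (tri i j l (ind i hi j hj) (ind i hi l hl) (ind j hj l hl)).resolve_left hc⟩⟩
  obtain ⟨u, hu, hS⟩ := key
  exact ⟨u, hu, Subset.antisymm hS (h.2 (st_max u hu).1 hS)⟩

def fin (ch : List (Fin 26)) : Bool :=
  ch.isEmpty || (List.range 17).any fun u => (List.finRange 26).all fun i => ch.contains i == inc u i

def ok : List (Fin 26) → ℤ → ℤ → List (Fin 26) → Bool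
  | [], _, a, ch => a != 0 || fin ch
  | i :: l, b, a, ch => ok l b a ch && (decide (b < w i) || ok l (b - w i) (a + k i) (i :: ch))

lemma ok_all : ok (List.finRange 26) 48 0 [] = true := by decide +kernel

lemma w_pos : ∀ i, 0 < w i ∧ 0 < 10000 * w i + k i := by decide +kernel

lemma sound (T : Finset (Fin 26)) (l : List (Fin 26)) : ∀ (b a : ℤ) (ch : List (Fin 26)),
    ok l b a ch = true → ((l.filter (· ∈ T)).map w).sum ≤ b →
    a + ((l.filter (· ∈ T)).map k).sum = 0 → fin ((l.filter (· ∈ T)).reverse ++ ch) = true := by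
  induction l with
  | nil =>
    intro b a ch h _ h2
    simp only [List.filter_nil, List.map_nil, List.sum_nil, add_zero] at h2
    simpa [ok, h2] using h
  | cons i l ih =>
    intro b a ch h h1 h2
    simp only [ok, Bool.and_eq_true, Bool.or_eq_true, decide_eq_true_eq] at h
    by_cases hi : i ∈ T
    · simp only [List.filter_cons, hi, decide_true, if_true, List.map_cons, List.sum_cons,
        List.reverse_cons, List.append_assoc, List.singleton_append] at h1 h2 ⊢
      have : 0 ≤ ((l.filter (· ∈ T)).map w).sum := List.sum_nonneg (by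
        intro x hx
        obtain ⟨j, -, rfl⟩ := List.mem_map.1 hx
        exact (w_pos j).1.le)
      exact ih _ _ _ (h.2.resolve_left (by omega)) (by omega) (by omega)
    · simp only [List.filter_cons, hi, decide_false] at h1 h2 ⊢
      exact ih _ _ _ h.1 h1 h2

lemma lsum (T : Finset (Fin 26)) (f : Fin 26 → ℤ) :
    (((List.finRange 26).filter (· ∈ T)).map f).sum = ∑ i ∈ T, f i := by
  rw [← List.sum_toFinset f ((List.nodup_finRange 26).filter _)]
  congr 1
  ext i
  simp

lemma G_se : StrEq G := by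
  intro T hT hn γ hγ
  have s1 : ∀ u < 17, ∑ i ∈ st u, w i = 48 ∧ ∑ i ∈ st u, k i = 0 := by decide +kernel
  by_contra hc
  push Not at hc
  have h1 := hc (fun i => (w i : ℝ) / 48)
    (fun i => div_pos (by exact_mod_cast (w_pos i).1) (by norm_num)) (by
      intro S hS
      obtain ⟨u, hu, rfl⟩ := is_st hS
      rw [← sum_div, div_eq_one_iff_eq (by norm_num)]
      exact_mod_cast (s1 u hu).1)
  have h2 := hc (fun i => ((10000 * w i + k i : ℤ) : ℝ) / 480000)
    (fun i => div_pos (by exact_mod_cast (w_pos i).2) (by norm_num)) (by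
      intro S hS
      obtain ⟨u, hu, rfl⟩ := is_st hS
      rw [← sum_div, div_eq_one_iff_eq (by norm_num), ← Int.cast_sum, sum_add_distrib, ← mul_sum,
        (s1 u hu).1, (s1 u hu).2]
      norm_num)
  rw [← sum_div, ← Int.cast_sum] at h1 h2
  rw [sum_add_distrib, ← mul_sum, Int.cast_add, Int.cast_mul] at h2
  have h3 : ((∑ i ∈ T, w i : ℤ) : ℝ) ≤ 48 := by linarith
  have h4 : ((∑ i ∈ T, k i : ℤ) : ℝ) = 0 := by push_cast at h1 h2 ⊢; linarith
  have h5 := sound T _ _ _ _ ok_all (by rw [lsum]; exact_mod_cast h3)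
    (by rw [lsum, zero_add]; exact_mod_cast h4)
  simp only [fin, Bool.or_eq_true, List.any_eq_true, List.all_eq_true, List.mem_range,
    List.append_nil] at h5
  rcases h5 with h5 | ⟨u, hu, h5⟩
  · obtain ⟨i, hi⟩ := hT
    have : i ∈ ((List.finRange 26).filter (· ∈ T)).reverse := by simp [hi]
    rw [List.isEmpty_iff.1 h5] at this
    simp at this
  · apply hn
    have : T = st u := by
      ext i
      have := h5 i (List.mem_finRange i)
      simp only [st, mem_filter, mem_univ, true_and]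
      rw [← beq_iff_eq.1 this]
      simp
    rw [this]
    exact st_max u hu

lemma K2_se : StrEq (⊤ : SimpleGraph (Fin 2)) := by
  intro T hT hn γ hγ
  have h1 : ∀ i : Fin 2, MaxStable (⊤ : SimpleGraph (Fin 2)) {i} := fun i =>
    max_of (by simp) (by simp)
  have h2 : ∀ T : Finset (Fin 2), T = ∅ ∨ T = {0} ∨ T = {1} ∨ T = univ := by decide
  refine ⟨fun _ => 1, fun _ => one_pos, fun S hS => ?_, ?_⟩
  · rcases h2 S with rfl | rfl | rfl | rfl
    · simpa using hS.2 (h1 0).1 (empty_subset _)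
    · simp
    · simp
    · exact absurd (show (⊤ : SimpleGraph (Fin 2)).Adj 0 1 by simp)
        (hS.1 (by simp) (by simp) (by simp))
  · rcases h2 T with rfl | rfl | rfl | rfl
    · simp at hT
    · exact absurd (h1 0) hn
    · exact absurd (h1 1) hn
    · simp; linarith

instance : DecidableRel (subst G 0 (⊤ : SimpleGraph (Fin 2))).Adj
  | .inl a, .inl b => inferInstanceAs (Decidable (G.Adj a b))
  | .inl a, .inr _ => inferInstanceAs (Decidable (G.Adj a 0))
  | .inr _, .inl b => inferInstanceAs (Decidable (G.Adj 0 b))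
  | .inr a, .inr b => inferInstanceAs (Decidable (a ≠ b))

def inc' (u : ℕ) : ({u : Fin 26 // u ≠ 0} ⊕ Fin 2) → Bool
  | .inl a => if u = 9 then a.1.1 == 24 || a.1.1 == 25 else inc u a
  | .inr c => u == 9 || u == c.1

def st' (u : ℕ) : Finset ({u : Fin 26 // u ≠ 0} ⊕ Fin 2) := univ.filter (fun i => inc' u i = true)

lemma not_se : ¬ StrEq (subst G 0 (⊤ : SimpleGraph (Fin 2))) := by
  intro h
  have m1 : ∀ u < 9, ∀ a b, inc' u a = true → inc' u b = true →
      ¬ (subst G 0 (⊤ : SimpleGraph (Fin 2))).Adj a b := by decide +kernel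
  have m2 : ∀ u < 9, ∀ x, inc' u x = true ∨ ∃ y, inc' u y = true ∧
      (subst G 0 (⊤ : SimpleGraph (Fin 2))).Adj x y := by decide +kernel
  have m : ∀ u < 9, MaxStable (subst G 0 (⊤ : SimpleGraph (Fin 2))) (st' u) := fun u hu =>
    max_of (fun a ha b hb => m1 u hu a b (mem_filter.1 ha).2 (mem_filter.1 hb).2) (fun x hx => by
      obtain ⟨y, a, b⟩ := (m2 u hu x).resolve_left fun e => hx (mem_filter.2 ⟨mem_univ _, e⟩)
      exact ⟨y, mem_filter.2 ⟨mem_univ _, a⟩, b⟩)
  obtain ⟨φ, -, h1, h2⟩ := h (st' 9) ⟨.inr 0, by decide⟩ (fun hm =>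
    hm.1 (show .inr 0 ∈ st' 9 by decide) (show .inr 1 ∈ st' 9 by decide) (by simp)
      (show (0 : Fin 2) ≠ 1 by decide)) 1 le_rfl
  have h3 : ∀ u < 9, ∑ x, (if inc' u x = true then (1 : ℤ) else 0) * φ x = 1 := by
    intro u hu
    rw [← h1 _ (m u hu), st', sum_filter]
    exact sum_congr rfl fun x _ => by split_ifs <;> simp
  have h4 : ∀ x, (if inc' 9 x = true then (1 : ℤ) else 0) =
      ∑ u ∈ range 9, (if u < 5 then 1 else -1) * (if inc' u x = true then (1 : ℤ) else 0) := by
    decide +kernel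
  apply h2
  have h5 : ∑ v ∈ st' 9, φ v = ∑ x, (if inc' 9 x = true then (1 : ℤ) else 0) * φ x := by
    rw [st', sum_filter]
    exact sum_congr rfl fun x _ => by split_ifs <;> simp
  rw [h5]
  simp only [h4, Int.cast_sum, sum_mul, Int.cast_mul, mul_assoc]
  rw [sum_comm, sum_congr rfl fun u hu => by rw [← mul_sum, h3 u (mem_range.1 hu)]]
  norm_num [sum_range_succ]

theorem result : ∃ (G : SimpleGraph (Fin 26)) (v : Fin 26) (H : SimpleGraph (Fin 2)),
    StrEq G ∧ StrEq H ∧ ¬ StrEq (subst G v H) :=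
  ⟨G, 0, ⊤, G_se, K2_se, not_se⟩

end Pool.Agent.Results.MP_89a31a_co.Counter
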